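import Pool.Agent.Helper6.NX.GoalsB

/-! Project NX, packet JEN: the Jensen step. -/

set_option autoImplicit false

namespace Pool.Agent.Helper2.NX

open Pool.Agent.Helper6.NX Equiv

variable {n : ℕ}

theorem ai (w : Perm (Fin n)) (p : Fin n) : w (w⁻¹ p) = p := w.apply_symm_apply p

theorem ia (w : Perm (Fin n)) (p : Fin n) : w⁻¹ (w p) = p := w.symm_apply_apply p

/-- indicator form of the matching weight -/
theorem match_eq (ω : Perm (Fin n) → ℝ) (p₁ p₂ : Fin n) (w₁ w₂ : Perm (Fin n)) :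
    (if w₁⁻¹ p₁ = w₂⁻¹ p₂ then ω w₁ * ω w₂ else 0) =
      ∑ q, (if w₁ q = p₁ then ω w₁ else 0) * (if w₂ q = p₂ then ω w₂ else 0) := by
  have e1 : w₁ (w₁⁻¹ p₁) = p₁ := ai _ _
  symm
  refine (Finset.sum_eq_single (w₁⁻¹ p₁) ?_ ?_).trans ?_
  · intro q _ hq
    rw [if_neg (fun h => hq (by rw [← h, ia])), zero_mul]
  · intro h
    exact absurd (Finset.mem_univ _) h
  · rw [if_pos e1]
    by_cases h : w₁⁻¹ p₁ = w₂⁻¹ p₂
    · have e2 : w₂ (w₁⁻¹ p₁) = p₂ := by rw [h, ai]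
      rw [if_pos h, if_pos e2]
    · have e2 : ¬ w₂ (w₁⁻¹ p₁) = p₂ := fun h' => h (by rw [← h', ia])
      rw [if_neg h, if_neg e2, mul_zero]

/-- the same with the off-diagonal terms -/
theorem match_T (ω : Perm (Fin n) → ℝ) (k₁ k₂ : Fin n → ℝ) (p₁ p₂ : Fin n)
    (w₁ w₂ : Perm (Fin n)) :
    (if w₁⁻¹ p₁ = w₂⁻¹ p₂ then ω w₁ * ω w₂ else 0) *
        ∑ v ∈ Finset.univ.erase (w₁⁻¹ p₁), k₁ (w₁ v) * k₂ (w₂ v) =
      ∑ q, ∑ v ∈ Finset.univ.erase q, (if w₁ q = p₁ then ω w₁ * k₁ (w₁ v) else 0) *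
        (if w₂ q = p₂ then ω w₂ * k₂ (w₂ v) else 0) := by
  have e1 : w₁ (w₁⁻¹ p₁) = p₁ := ai _ _
  symm
  refine (Finset.sum_eq_single (w₁⁻¹ p₁) ?_ ?_).trans ?_
  · intro q _ hq
    apply Finset.sum_eq_zero
    intro v _
    rw [if_neg (fun h => hq (by rw [← h, ia])), zero_mul]
  · intro h
    exact absurd (Finset.mem_univ _) h
  · rw [Finset.mul_sum]
    apply Finset.sum_congr rfl
    intro v _
    rw [if_pos e1]
    by_cases h : w₁⁻¹ p₁ = w₂⁻¹ p₂
    · have e2 : w₂ (w₁⁻¹ p₁) = p₂ := by rw [h, ai]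
      rw [if_pos h, if_pos e2]
      ring
    · have e2 : ¬ w₂ (w₁⁻¹ p₁) = p₂ := fun h' => h (by rw [← h', ia])
      rw [if_neg h, if_neg e2, mul_zero, zero_mul]

theorem factor_le {ω : Perm (Fin n) → ℝ} (hn : 2 ≤ n) (hω : IsLaw ω) (hM : Mix2 ω)
    {k : Fin n → ℝ} (hk : ∀ u, 0 ≤ k u) (hk1 : ∑ u, k u ≤ 1) (p q v : Fin n) (hv : v ≠ q) :
    ∑ w, (if w q = p then ω w * k (w v) else 0) ≤ 2 / (n * (n - 1)) := by
  have hn' : (2 : ℝ) ≤ n := by exact_mod_cast hn
  have hpos : 0 < (n : ℝ) * (n - 1) := mul_pos (by linarith) (by linarith)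
  have h1 : ∑ w, (if w q = p then ω w * k (w v) else 0) =
      ∑ u, k u * ∑ w, (if w q = p ∧ w v = u then ω w else 0) := by
    simp only [Finset.mul_sum]
    rw [Finset.sum_comm]
    apply Finset.sum_congr rfl
    intro w _
    rw [Finset.sum_eq_single (w v)]
    · by_cases h : w q = p
      · simp [h, mul_comm]
      · simp [h]
    · intro u _ hu
      rw [if_neg (fun h => hu h.2.symm), mul_zero]
    · intro h
      exact absurd (Finset.mem_univ _) h
  rw [h1]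
  have h2 : ∀ u, ∑ w, (if w q = p ∧ w v = u then ω w else 0) ≤ 2 / (n * (n - 1)) := by
    intro u
    by_cases hu : p = u
    · have : ∑ w : Perm (Fin n), (if w q = p ∧ w v = u then ω w else 0) = 0 := by
        apply Finset.sum_eq_zero
        intro w _
        rw [if_neg]
        rintro ⟨a, b⟩
        exact hv (w.injective (by rw [a, b, hu]))
      rw [this]
      positivity
    · exact hM.up2 q v p u hv.symm hu
  calc ∑ u, k u * ∑ w, (if w q = p ∧ w v = u then ω w else 0) ≤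
        ∑ u, k u * (2 / (n * (n - 1))) :=
          Finset.sum_le_sum fun u _ => mul_le_mul_of_nonneg_left (h2 u) (hk u)
    _ = (∑ u, k u) * (2 / (n * (n - 1))) := by rw [Finset.sum_mul]
    _ ≤ 1 * (2 / (n * (n - 1))) := mul_le_mul_of_nonneg_right hk1 (by positivity)
    _ = _ := one_mul _

theorem thmJEN : S_JEN := by
  intro n ω k₁ k₂ p₁ p₂ hn hω hM hk1 hk2 hs1 hs2 hp1 hp2
  have hn' : (2 : ℝ) ≤ n := by exact_mod_cast hn
  have hn0 : (0 : ℝ) < n := by linarith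
  have hn1 : (0 : ℝ) < (n : ℝ) - 1 := by linarith
  set K : ℝ := k₁ p₁ * k₂ p₂ with hK
  have hK0 : 0 < K := mul_pos hp1 hp2
  set t : ℝ := 1 + 32 / (n * K) with ht
  have ht1 : 1 ≤ t := by
    have : 0 ≤ 32 / (n * K) := by positivity
    linarith
  have ht0 : 0 < t := by linarith
  set m : Perm (Fin n) → Perm (Fin n) → ℝ := fun w₁ w₂ =>
    if w₁⁻¹ p₁ = w₂⁻¹ p₂ then ω w₁ * ω w₂ else 0 with hm
  set T : Perm (Fin n) → Perm (Fin n) → ℝ := fun w₁ w₂ =>
    ∑ v ∈ Finset.univ.erase (w₁⁻¹ p₁), k₁ (w₁ v) * k₂ (w₂ v) with hT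
  have hm0 : ∀ w₁ w₂, 0 ≤ m w₁ w₂ := by
    intro w₁ w₂
    simp only [hm]
    split_ifs
    · exact mul_nonneg (hω.1 _) (hω.1 _)
    · exact le_rfl
  have hT0 : ∀ w₁ w₂, 0 ≤ T w₁ w₂ := fun w₁ w₂ =>
    Finset.sum_nonneg fun v _ => mul_nonneg (hk1 _) (hk2 _)
  -- the masses
  have e0 : ∑ w₁, ∑ w₂, m w₁ w₂ = ∑ q, (∑ w : Perm (Fin n), (if w q = p₁ then ω w else 0)) *
      ∑ w : Perm (Fin n), (if w q = p₂ then ω w else 0) := by
    simp only [hm, match_eq]
    rw [Finset.sum_congr rfl fun w₁ _ => Finset.sum_comm, Finset.sum_comm]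
    apply Finset.sum_congr rfl
    intro q _
    rw [Finset.sum_mul_sum]
  have m_lo : 1 / (4 * n) ≤ ∑ w₁, ∑ w₂, m w₁ w₂ := by
    rw [e0]
    calc (1 : ℝ) / (4 * n) = ∑ _q : Fin n, (1 / (2 * n) : ℝ) * (1 / (2 * n)) := by
          rw [Finset.sum_const, Finset.card_univ, Fintype.card_fin, nsmul_eq_mul]
          field_simp
          norm_num
      _ ≤ _ := Finset.sum_le_sum fun q _ =>
          mul_le_mul (hM.lo1 q p₁) (hM.lo1 q p₂) (by positivity)
            ((by positivity : (0 : ℝ) ≤ 1 / (2 * n)).trans (hM.lo1 q p₁))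
  have m_up : ∑ w₁, ∑ w₂, m w₁ w₂ ≤ 2 / n := by
    rw [e0]
    calc _ ≤ ∑ q : Fin n, 2 / (n : ℝ) * ∑ w : Perm (Fin n), (if w q = p₂ then ω w else 0) :=
          Finset.sum_le_sum fun q _ => mul_le_mul_of_nonneg_right (hM.up1 q p₁)
            (Finset.sum_nonneg fun w _ => by split_ifs; exacts [hω.1 w, le_rfl])
      _ = 2 / (n : ℝ) * ∑ w : Perm (Fin n), ω w := by
          rw [← Finset.mul_sum, Finset.sum_comm]
          congr 1
          apply Finset.sum_congr rfl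
          intro w _
          refine (Finset.sum_eq_single (w⁻¹ p₂) ?_ ?_).trans ?_
          · intro q _ hq
            rw [if_neg (fun h => hq (by rw [← h, ia]))]
          · intro h
            exact absurd (Finset.mem_univ _) h
          · rw [if_pos (ai _ _)]
      _ = 2 / n := by rw [hω.2, mul_one]
  have S_le : ∑ w₁, ∑ w₂, m w₁ w₂ * T w₁ w₂ ≤ 4 / (n * (n - 1)) := by
    have e1 : ∑ w₁, ∑ w₂, m w₁ w₂ * T w₁ w₂ = ∑ q, ∑ v ∈ Finset.univ.erase q,
        (∑ w : Perm (Fin n), (if w q = p₁ then ω w * k₁ (w v) else 0)) *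
          ∑ w : Perm (Fin n), (if w q = p₂ then ω w * k₂ (w v) else 0) := by
      simp only [hm, hT, match_T]
      rw [Finset.sum_congr rfl fun w₁ _ => Finset.sum_comm, Finset.sum_comm]
      apply Finset.sum_congr rfl
      intro q _
      rw [Finset.sum_congr rfl fun w₁ _ => Finset.sum_comm, Finset.sum_comm]
      apply Finset.sum_congr rfl
      intro v _
      rw [Finset.sum_mul_sum]
    rw [e1]
    have hd : (0 : ℝ) ≤ 2 / (n * (n - 1)) := by positivity
    calc _ ≤ ∑ q : Fin n, ∑ v ∈ Finset.univ.erase q,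
          (2 / (n * (n - 1)) : ℝ) * (2 / (n * (n - 1))) := by
          refine Finset.sum_le_sum fun q _ => Finset.sum_le_sum fun v hv => ?_
          refine mul_le_mul (factor_le hn hω hM hk1 hs1 p₁ q v (Finset.ne_of_mem_erase hv))
            (factor_le hn hω hM hk2 hs2 p₂ q v (Finset.ne_of_mem_erase hv)) ?_ hd
          refine Finset.sum_nonneg fun w _ => ?_
          split_ifs
          · exact mul_nonneg (hω.1 w) (hk2 _)
          · exact le_rfl
      _ = 4 / (n * (n - 1)) := by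
          simp only [Finset.sum_const, Finset.card_univ, Fintype.card_fin, nsmul_eq_mul,
            Finset.card_erase_of_mem (Finset.mem_univ _)]
          rw [Nat.cast_sub (by omega), Nat.cast_one]
          field_simp
          norm_num
  -- pointwise bound
  have hpt : ∀ w₁ w₂, m w₁ w₂ * Real.log ((∑ v, k₁ (w₁ v) * k₂ (w₂ v)) / K) ≤
      m w₁ w₂ * (Real.log t + (1 - t) / t) + m w₁ w₂ * T w₁ w₂ * (1 / (K * t)) := by
    intro w₁ w₂
    by_cases h : w₁⁻¹ p₁ = w₂⁻¹ p₂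
    · have hsum : ∑ v, k₁ (w₁ v) * k₂ (w₂ v) = K + T w₁ w₂ := by
        rw [← Finset.add_sum_erase _ _ (Finset.mem_univ (w₁⁻¹ p₁))]
        congr 1
        have e1 : w₁ (w₁⁻¹ p₁) = p₁ := ai _ _
        have e2 : w₂ (w₁⁻¹ p₁) = p₂ := by rw [h, ai]
        rw [e1, e2]
      have hR : 0 < (K + T w₁ w₂) / K := div_pos (by linarith [hT0 w₁ w₂]) hK0
      have hlog : Real.log ((K + T w₁ w₂) / K) ≤ Real.log t + (((K + T w₁ w₂) / K) / t - 1) := by
        have h1 := Real.log_le_sub_one_of_pos (div_pos hR ht0)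
        rw [Real.log_div hR.ne' ht0.ne'] at h1
        linarith
      rw [hsum]
      have := mul_le_mul_of_nonneg_left hlog (hm0 w₁ w₂)
      refine this.trans (le_of_eq ?_)
      field_simp
      ring
    · have : m w₁ w₂ = 0 := if_neg h
      rw [this]
      simp
  have hsum : ∑ w₁, ∑ w₂, m w₁ w₂ * Real.log ((∑ v, k₁ (w₁ v) * k₂ (w₂ v)) / K) ≤
      (∑ w₁, ∑ w₂, m w₁ w₂) * (Real.log t + (1 - t) / t) +
        (∑ w₁, ∑ w₂, m w₁ w₂ * T w₁ w₂) * (1 / (K * t)) := by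
    simp only [Finset.sum_mul]
    rw [← Finset.sum_add_distrib]
    refine Finset.sum_le_sum fun w₁ _ => ?_
    rw [← Finset.sum_add_distrib]
    exact Finset.sum_le_sum fun w₂ _ => hpt w₁ w₂
  refine hsum.trans ?_
  set M := ∑ w₁, ∑ w₂, m w₁ w₂ with hMd
  set S := ∑ w₁, ∑ w₂, m w₁ w₂ * T w₁ w₂ with hSd
  have hlt : 0 ≤ Real.log t := Real.log_nonneg ht1
  have a1 : M * Real.log t ≤ 2 / n * Real.log t := mul_le_mul_of_nonneg_right m_up hlt
  have a2 : S ≤ 8 / n ^ 2 := by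
    refine S_le.trans ?_
    rw [div_le_div_iff₀ (by positivity) (by positivity)]
    nlinarith
  have a3 : 8 / (n : ℝ) ^ 2 ≤ M * (K * (t - 1)) := by
    have e1 : K * (t - 1) = 32 / n := by
      rw [ht]; field_simp; ring
    rw [e1]
    calc (8 : ℝ) / n ^ 2 = 1 / (4 * n) * (32 / n) := by field_simp; norm_num
      _ ≤ M * (32 / n) := mul_le_mul_of_nonneg_right m_lo (by positivity)
  have a4 : M * ((1 - t) / t) + S * (1 / (K * t)) ≤ 0 := by
    have e1 : M * ((1 - t) / t) + S * (1 / (K * t)) = (S - M * (K * (t - 1))) / (K * t) := by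
      field_simp
      ring
    rw [e1]
    exact div_nonpos_of_nonpos_of_nonneg (by linarith) (by positivity)
  have e2 : M * (Real.log t + (1 - t) / t) = M * Real.log t + M * ((1 - t) / t) := by ring
  rw [e2]
  linarith

end Pool.Agent.Helper2.NX
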